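import Pool.Agent.Q61.BS.All

/-!
# The Hausdorff dimension of Barański sponges is not piecewise real-analytic

The definitions are in `Pool/Agent/Q61/BS/Def.lean`: `Par d A` are the families of pairs
`(r_{i,a}, t_{i,a})`, `Bar d A` and `SBar d A` the sets of the Barański and of the strongly Barański
parameters, `HD E l` the Hausdorff dimension of the limit set `Lam E l` of the diagonal IFS with the
index set `E` and the parameter `l`, and `RealAnOn`, `PwAnOn` mean real-analytic and piecewise
real-analytic on a set.
-/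

set_option autoImplicit false

namespace Pool.Agent.Results.MP_0b6f3a_an.NotPiecewiseAnalytic

open Pool.Agent.Q61.BS

/-- For `d = 2`, `A_1 = A_2 = {0,1,2,3}` and `E = {(0,0), (1,1), (1,2), (1,3)}` the Hausdorff
dimension of the limit set is neither real-analytic nor piecewise real-analytic, both on the set of
the Barański parameters and on the set of the strongly Barański parameters. -/
theorem result : ∃ E : Set ((i : Fin 2) → (fun _ : Fin 2 => Fin 4) i), E.Nonempty ∧
    E = {![0, 0], ![1, 1], ![1, 2], ![1, 3]} ∧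
    (¬ RealAnOn (HD E) (Bar 2 (fun _ => Fin 4)) ∧ ¬ PwAnOn (HD E) (Bar 2 (fun _ => Fin 4))) ∧
    (¬ RealAnOn (HD E) (SBar 2 (fun _ => Fin 4)) ∧ ¬ PwAnOn (HD E) (SBar 2 (fun _ => Fin 4))) :=
  ⟨E0, ⟨![0, 0], by simp [E0]⟩, rfl, all⟩

end Pool.Agent.Results.MP_0b6f3a_an.NotPiecewiseAnalytic
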